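import Pool.Agent.T2h77U.Stm

/-! One ring part of the elimination step. -/

set_option autoImplicit false
set_option linter.unusedVariables false
set_option linter.unusedSectionVars false

namespace Pool.Agent.T3h43.UR

open Pool.Agent.T2h77U Polynomial

section one

variable {O k : Type} [CommRing O] [IsDomain O] [Field k] {H : HF O k}

theorem rv_snd (hS : S_SUM) (x : O) : (H.rv x).2 = 0 ↔ x = 0 := (hS O k H).2.1 x

theorem rv_zero : H.rv 0 = (0, 0) := by
  simp [HF.rv, H.v_zero, H.ac_zero]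

theorem rv_eq_zero (hS : S_SUM) (x : O) : H.rv x = (0, 0) ↔ x = 0 := by
  constructor
  · intro h
    rw [← rv_snd (H := H) hS x, h]
  · rintro rfl
    exact rv_zero

theorem rv_mul (hS : S_SUM) {x y : O} (hx : x ≠ 0) (hy : y ≠ 0) :
    H.rv (x * y) = ((H.rv x).1 + (H.rv y).1, (H.rv x).2 * (H.rv y).2) :=
  (hS O k H).1 x y hx hy

theorem rv_one (hS : S_SUM) : H.rv 1 = (0, 1) := by
  have h := rv_mul (H := H) hS (one_ne_zero (α := O)) one_ne_zero
  rw [mul_one] at h
  have h1 : (H.rv 1).1 = (H.rv 1).1 + (H.rv 1).1 := congrArg Prod.fst h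
  have h2 : (H.rv 1).2 = (H.rv 1).2 * (H.rv 1).2 := congrArg Prod.snd h
  have h3 : (H.rv 1).2 ≠ 0 := by
    rw [Ne, rv_snd hS]; exact one_ne_zero
  have h4 : (H.rv 1).2 = 1 := by
    have := mul_left_cancel₀ h3 (h2.symm.trans (mul_one _).symm)
    exact this
  ext
  · change (H.rv 1).1 = 0
    omega
  · exact h4

theorem rv_pow (hS : S_SUM) {x : O} (hx : x ≠ 0) (j : ℕ) :
    H.rv (x ^ j) = (j * (H.rv x).1, (H.rv x).2 ^ j) := by
  induction j with
  | zero => simp [rv_one hS]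
  | succ j ih =>
    rw [pow_succ, rv_mul hS (pow_ne_zero _ hx) hx, ih]
    ext
    · simp only; ring
    · simp only [pow_succ]

theorem rep_rv (hS : S_SUM) (y : O) : H.Rep (H.rv y) y := by
  by_cases h : y = 0
  · exact Or.inl ⟨(rv_snd hS y).2 h, h⟩
  · exact Or.inr ⟨fun h' => h ((rv_snd hS y).1 h'), h, rfl⟩

theorem rep_mulp (hS : S_SUM) (a x : O) (hx : x ≠ 0) (j : ℕ) :
    H.Rep (mulp (H.rv a) (H.rv x) j) (a * x ^ j) := by
  by_cases h : a = 0
  · subst h
    refine Or.inl ⟨?_, by simp⟩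
    simp [mulp, rv_zero]
  · have hp : x ^ j ≠ 0 := pow_ne_zero _ hx
    have e : H.rv (a * x ^ j) = mulp (H.rv a) (H.rv x) j := by
      rw [rv_mul hS h hp, rv_pow hS hx]; rfl
    refine Or.inr ⟨?_, mul_ne_zero h hp, e⟩
    rw [← e, Ne, rv_snd hS]
    exact mul_ne_zero h hp

theorem eval_taylor (f : O[X]) {D : ℕ} (hf : f.natDegree ≤ D) (b h : O) :
    f.eval (b + h) = ∑ j : Fin (D + 1), (hasseDeriv j f).eval b * h ^ (j : ℕ) := by
  have h1 : f.eval (b + h) = (taylor b f).eval h := by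
    rw [taylor_eval, add_comm]
  have h2 : (taylor b f).natDegree < D + 1 := by
    rw [natDegree_taylor]; omega
  rw [h1, eval_eq_sum_range' h2 h, Finset.sum_range (fun i => (taylor b f).coeff i * h ^ i)]
  exact Finset.sum_congr rfl fun j _ => by rw [taylor_coeff]

/-- the leading term at `b + h` from the ones at `b`, no cancellation -/
theorem rv_taylor (hS : S_SUM) (f : O[X]) {D : ℕ} (hf : f.natDegree ≤ D) (b h : O) (hh : h ≠ 0)
    (σ : ℕ × k) (hσ : NoCancel (fun j : Fin (D + 1) =>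
      mulp (H.rv ((hasseDeriv j f).eval b)) (H.rv h) j) σ) : H.rv (f.eval (b + h)) = σ := by
  rw [eval_taylor f hf b h]
  exact (hS O k H).2.2.2.2.2.1 (D + 1) _ _ σ (fun j => rep_mulp hS _ _ hh _) hσ

/-- the set `PtS` for one ring -/
def Pt1 {m : ℕ} (H : HF O k) (f : Fin m → O[X]) (S : Finset (Fin m)) : Set (Fin m → ℕ × k) :=
  {τ | ∃ b : O, (∃ a ∈ S, f a ≠ 0 ∧ (f a).eval b = 0) ∧
    ∀ a, τ a = if a ∈ S then H.rv ((f a).eval b) else (0, 0)}

/-- the condition on the leading term of the pseudo-remainder -/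
def CA {k : Type} [Field k] (c r sb : ℕ × k) (N : ℕ) : Prop :=
  (r.2 = 0 ∧ sb = (0, 0)) ∨ (r.2 ≠ 0 ∧ (N * c.1 + sb.1 = r.1 ∧ c.2 ^ N * sb.2 = r.2))

theorem CA_iff (hS : S_SUM) {c y r : O} (hc : c ≠ 0) {N : ℕ} (h : c ^ N * y = r) (sb : ℕ × k) :
    CA (H.rv c) (H.rv r) sb N ↔ sb = H.rv y := by
  have hcN : c ^ N ≠ 0 := pow_ne_zero _ hc
  have hc2 : (H.rv c).2 ≠ 0 := by rw [Ne, rv_snd hS]; exact hc
  by_cases hy : y = 0
  · have hr : r = 0 := by rw [← h, hy, mul_zero]
    subst hy; subst hr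
    rw [CA, rv_zero]
    simp
  · have hr : r ≠ 0 := by rw [← h]; exact mul_ne_zero hcN hy
    have hr2 : (H.rv r).2 ≠ 0 := by rw [Ne, rv_snd hS]; exact hr
    have e : H.rv r = (N * (H.rv c).1 + (H.rv y).1, (H.rv c).2 ^ N * (H.rv y).2) := by
      rw [← h, rv_mul hS hcN hy, rv_pow hS hc]
    rw [CA]
    constructor
    · rintro (⟨h1, -⟩ | ⟨-, h1, h2⟩)
      · exact absurd h1 hr2
      · rw [e] at h1 h2
        simp only at h1 h2
        ext
        · omega
        · exact mul_left_cancel₀ (pow_ne_zero _ hc2) h2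
    · rintro rfl
      refine Or.inr ⟨hr2, ?_, ?_⟩
      · rw [e]
      · rw [e]

/-- the elimination step for one ring -/
theorem one_step (hS : S_SUM) (hN : S_NCL) (hH : S_HEN) {m D : ℕ}
    (hD : ∀ j : ℕ, 1 ≤ j → j ≤ D → (j : k) ≠ 0)
    (f : Fin m → O[X]) (lc : Fin m → O) (der : Fin m → ℕ → Fin m)
    (rem : Fin m → Fin m) (N : Fin m → ℕ) (x0 : Fin m) (S : Finset (Fin m)) (a0 : Fin m)
    (hdeg : ∀ a, (f a).natDegree ≤ D) (hx0 : f x0 = X) (hx0S : x0 ∈ S)
    (hder0 : ∀ a, der a 0 = a) (hder : ∀ a j, f (der a j) = hasseDeriv j (f a))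
    (hlead : ∀ a ∈ S, f a ≠ 0 → ∃ h ∈ S, lc h ≠ 0 ∧ f h = f a)
    (hlc : ∀ h, lc h ≠ 0 → f h ≠ 0)
    (hrem : ∀ h ∈ S, lc h ≠ 0 → ∃ Q : O[X], C (lc h) ^ N h * f a0 = Q * f h + f (rem h))
    (hderS : ∀ a ∈ S, ∀ j, der a j ∈ S) (hremS : ∀ h ∈ S, rem h ∈ S)
    (hder0S : ∀ j, 1 ≤ j → der a0 j ∈ S) (ha0 : a0 ∉ S) (τ : Fin m → ℕ × k) :
    τ ∈ Pt1 H f (insert a0 S) ↔ ∃ (tb : Fin m → ℕ × k) (sb ρ : ℕ × k), tb ∈ Pt1 H f S ∧
      (∃ h : S, (tb h).2 = 0 ∧ (H.rv (lc h)).2 ≠ 0 ∧ CA (H.rv (lc h)) (tb (rem h)) sb (N h)) ∧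
      ((∀ a, τ a = if a = a0 then sb else tb a) ∨
        (ρ.2 ≠ 0 ∧ (∀ a : S, NoCancel (fun j : Fin (D + 1) => mulp (tb (der a j)) ρ j) (τ a)) ∧
          (∀ a : {a // a ∉ S}, τ a = (0, 0)) ∧
          Cancel (fun j : Fin (D + 1) =>
            mulp (if (j : ℕ) = 0 then sb else tb (der a0 j)) ρ j))) := by
  -- the condition (A) for the vector at a root
  have keyA : ∀ (b : O), (∃ a ∈ S, f a ≠ 0 ∧ (f a).eval b = 0) → ∀ tb : Fin m → ℕ × k,
      (∀ a, tb a = if a ∈ S then H.rv ((f a).eval b) else (0, 0)) →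
      (∃ h : S, (tb h).2 = 0 ∧ (H.rv (lc h)).2 ≠ 0 ∧
        CA (H.rv (lc h)) (tb (rem h)) (H.rv ((f a0).eval b)) (N h)) := by
    rintro b ⟨a, ha, hfa, hb⟩ tb htb
    obtain ⟨h, hhS, hlch, hfh⟩ := hlead a ha hfa
    refine ⟨⟨h, hhS⟩, ?_, ?_, ?_⟩
    · simp only
      rw [htb, if_pos hhS, hfh, hb, rv_snd hS]
    · rw [Ne, rv_snd hS]; exact hlch
    · simp only
      rw [htb, if_pos (hremS h hhS)]
      obtain ⟨Q, hQ⟩ := hrem h hhS hlch
      refine (CA_iff hS hlch ?_ _).2 rfl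
      have := congrArg (eval b) hQ
      rw [hfh] at this
      simpa [hb] using this
  have keyA' : ∀ (b : O) (tb : Fin m → ℕ × k),
      (∀ a, tb a = if a ∈ S then H.rv ((f a).eval b) else (0, 0)) → ∀ sb : ℕ × k,
      (∃ h : S, (tb h).2 = 0 ∧ (H.rv (lc h)).2 ≠ 0 ∧
        CA (H.rv (lc h)) (tb (rem h)) sb (N h)) → sb = H.rv ((f a0).eval b) := by
    rintro b tb htb sb ⟨⟨h, hhS⟩, h1, h2, h3⟩
    simp only at h1 h2 h3
    rw [htb, if_pos hhS, rv_snd hS] at h1
    rw [Ne, rv_snd hS] at h2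
    rw [htb, if_pos (hremS h hhS)] at h3
    obtain ⟨Q, hQ⟩ := hrem h hhS h2
    refine (CA_iff hS h2 ?_ _).1 h3
    have := congrArg (eval b) hQ
    simpa [h1] using this
  constructor
  · rintro ⟨b0, hroot, hτ⟩
    by_cases hold : ∃ a ∈ S, f a ≠ 0 ∧ (f a).eval b0 = 0
    · -- a root of a member of `S`
      refine ⟨fun a => if a ∈ S then H.rv ((f a).eval b0) else (0, 0), H.rv ((f a0).eval b0),
        (0, 0), ⟨b0, hold, fun a => rfl⟩, keyA b0 hold _ (fun a => rfl), Or.inl ?_⟩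
      intro a
      rw [hτ]
      by_cases haa : a = a0
      · subst haa
        simp
      · simp [haa]
    · -- a new root
      have hnew : ∀ a ∈ S, f a ≠ 0 → (f a).eval b0 ≠ 0 := fun a ha h1 h2 =>
        hold ⟨a, ha, h1, h2⟩
      have hfa0 : f a0 ≠ 0 ∧ (f a0).eval b0 = 0 := by
        obtain ⟨a, ha, h1, h2⟩ := hroot
        rcases Finset.mem_insert.1 ha with rfl | ha
        · exact ⟨h1, h2⟩
        · exact absurd ⟨a, ha, h1, h2⟩ hold
      obtain ⟨l, b, -, -, ⟨c, hcS, hfc, hcb⟩, hne, -, hNC⟩ :=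
        hN O k H (Fin m) (S : Set (Fin m)) f der x0 D S.finite_toSet
          (fun a ha j => ⟨hderS a ha j, hder a j⟩) hx0S hx0 (fun a _ => hdeg a) hD b0 hnew
      have hh : b0 - b ≠ 0 := sub_ne_zero.2 hne
      have hb0 : b0 = b + (b0 - b) := by ring
      refine ⟨fun a => if a ∈ S then H.rv ((f a).eval b) else (0, 0), H.rv ((f a0).eval b),
        H.rv (b0 - b), ⟨b, ⟨c, hcS, hfc, hcb⟩, fun a => rfl⟩,
        keyA b ⟨c, hcS, hfc, hcb⟩ _ (fun a => rfl), Or.inr ⟨?_, ?_, ?_, ?_⟩⟩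
      · rw [Ne, rv_snd hS]; exact hh
      · rintro ⟨a, ha⟩
        have h1 := hNC a ha
        rw [hτ a, if_pos (Finset.mem_insert_of_mem ha)]
        convert h1 using 3 with j
        exact if_pos (hderS a ha j)
      · rintro ⟨a, ha⟩
        simp only
        rw [hτ a]
        by_cases haa : a = a0
        · subst haa
          rw [if_pos (Finset.mem_insert_self _ _), hfa0.2, rv_zero]
        · rw [if_neg]
          simp [haa, ha]
      · -- cancellation
        have he : (fun j : Fin (D + 1) => mulp (if (j : ℕ) = 0 then H.rv ((f a0).eval b) else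
            if der a0 j ∈ S then H.rv ((f (der a0 j)).eval b) else (0, 0)) (H.rv (b0 - b)) j) =
            (fun j : Fin (D + 1) => mulp (H.rv ((hasseDeriv j (f a0)).eval b))
              (H.rv (b0 - b)) j) := by
          funext j
          by_cases hj : (j : ℕ) = 0
          · rw [if_pos hj, hj, hasseDeriv_zero']
          · rw [if_neg hj, if_pos (hder0S _ (Nat.one_le_iff_ne_zero.2 hj)), hder]
        change Cancel (fun j : Fin (D + 1) => mulp (if (j : ℕ) = 0 then H.rv ((f a0).eval b) else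
            if der a0 j ∈ S then H.rv ((f (der a0 j)).eval b) else (0, 0)) (H.rv (b0 - b)) j)
        rw [he]
        rcases (hS O k H).2.2.2.2.2.2.2 (D + 1) (fun j : Fin (D + 1) =>
            mulp (H.rv ((hasseDeriv j (f a0)).eval b)) (H.rv (b0 - b)) j) with ⟨σ, hσ⟩ | hC
        · exfalso
          have hρ0 : (H.rv (b0 - b)).2 ≠ 0 := by
            rw [Ne, rv_snd hS]; exact hh
          have h1 := rv_taylor (H := H) hS (f a0) (hdeg a0) b (b0 - b) hh σ hσ
          rw [← hb0, hfa0.2, rv_zero] at h1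
          -- all terms vanish
          have h2 : ∀ j : Fin (D + 1), (hasseDeriv (j : ℕ) (f a0)).eval b = 0 := by
            rcases hσ with ⟨h3, -⟩ | ⟨M, -, h3, h4⟩
            · intro j
              have h5 := h3 j
              simp only [mulp] at h5
              rcases mul_eq_zero.1 h5 with h6 | h6
              · exact (rv_snd hS _).1 h6
              · exact absurd h6 (pow_ne_zero _ hρ0)
            · rw [h4] at h1
              exact absurd (congrArg Prod.snd h1).symm h3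
          apply hfa0.1
          have h5 : taylor b (f a0) = 0 := by
            ext n
            rw [taylor_coeff, coeff_zero]
            by_cases hn : n < D + 1
            · exact h2 ⟨n, hn⟩
            · rw [hasseDeriv_eq_zero_of_lt_natDegree _ _ (by have := hdeg a0; omega), eval_zero]
          exact (taylor_eq_zero b (f a0)).1 h5
        · exact hC
  · rintro ⟨tb, sb, ρ, ⟨b, hroot, htb⟩, hA, hB⟩
    have hsb := keyA' b tb htb sb hA
    rcases hB with hB | ⟨hρ, hNC, hz, hCan⟩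
    · refine ⟨b, ?_, ?_⟩
      · obtain ⟨a, ha, h⟩ := hroot
        exact ⟨a, Finset.mem_insert_of_mem ha, h⟩
      · intro a
        rw [hB a]
        by_cases haa : a = a0
        · subst haa
          simp [hsb]
        · simp [haa, htb a]
    · have he : (fun j : Fin (D + 1) =>
            mulp (if (j : ℕ) = 0 then sb else tb (der a0 j)) ρ j) =
            (fun j : Fin (D + 1) => mulp (H.rv ((hasseDeriv j (f a0)).eval b)) ρ j) := by
        funext j
        by_cases hj : (j : ℕ) = 0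
        · rw [if_pos hj, hj, hasseDeriv_zero', hsb]
        · rw [if_neg hj, htb, if_pos (hder0S _ (Nat.one_le_iff_ne_zero.2 hj)), hder]
      rw [he] at hCan
      have h1S : der a0 1 ∈ S := hder0S 1 le_rfl
      have h1 := hNC ⟨der a0 1, h1S⟩
      have h2 : (fun j : Fin (D + 1) => mulp (tb (der (der a0 1) j)) ρ j) =
          (fun j : Fin (D + 1) =>
            mulp (H.rv ((hasseDeriv j (hasseDeriv 1 (f a0))).eval b)) ρ j) := by
        funext j
        rw [htb, if_pos (hderS _ h1S j), hder, hder]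
      simp only at h1
      rw [h2] at h1
      obtain ⟨c, hc0, hcb, hcρ⟩ := hH O k H D hD (f a0) b ρ _ (hdeg a0) hρ h1 hCan
      have hh : c - b ≠ 0 := sub_ne_zero.2 hcb
      have hcc : b + (c - b) = c := by ring
      have hfa0 : f a0 ≠ 0 := by
        intro h0
        obtain ⟨M, -, ⟨j, hj, -⟩, -⟩ := hCan
        apply hj
        simp [h0, mulp, rv_zero]
      refine ⟨c, ⟨a0, Finset.mem_insert_self _ _, hfa0, hc0⟩, ?_⟩
      intro a
      by_cases haa : a = a0
      · subst haa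
        rw [if_pos (Finset.mem_insert_self _ _), hc0, rv_zero]
        exact hz ⟨a, ha0⟩
      · by_cases ha : a ∈ S
        · rw [if_pos (Finset.mem_insert_of_mem ha)]
          have h3 := hNC ⟨a, ha⟩
          have h4 : (fun j : Fin (D + 1) => mulp (tb (der a j)) ρ j) =
              (fun j : Fin (D + 1) => mulp (H.rv ((hasseDeriv j (f a)).eval b)) (H.rv (c - b)) j) := by
            funext j
            rw [htb, if_pos (hderS _ ha j), hder, hcρ]
          simp only at h3
          rw [h4] at h3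
          have h5 := rv_taylor hS (f a) (hdeg a) b (c - b) hh _ h3
          rw [hcc] at h5
          exact h5.symm
        · rw [if_neg]
          · exact hz ⟨a, ha⟩
          · simp [haa, ha]

end one

end Pool.Agent.T3h43.UR
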