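import Pool.Agent.T2h77U.Stm

/-! Counting classes modulo `π ^ N` of stable sets. -/

set_option autoImplicit false
set_option linter.unusedVariables false
set_option linter.unusedSectionVars false

namespace Pool.Agent.T3h43.UR

open Pool.Agent.T2h77U Polynomial

section cnt

variable {O k : Type} [CommRing O] [IsDomain O] [Field k] (H : HF O k)

/-- stability modulo `π ^ N` -/
def Stab {n : ℕ} (N : ℕ) (Y : Set (Fin n → O)) : Prop :=
  ∀ x x' : Fin n → O, (∀ j, H.pi ^ N ∣ x j - x' j) → (x ∈ Y ↔ x' ∈ Y)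

/-- the quotient -/
abbrev RN (N : ℕ) : Type := O ⧸ Ideal.span {H.pi ^ N}

/-- the projection -/
def mkN (N : ℕ) (t : O) : RN H N := Ideal.Quotient.mk (Ideal.span {H.pi ^ N}) t

/-- a section of the projection -/
noncomputable def sec (N : ℕ) (y : RN H N) : O :=
  Function.surjInv (f := mkN H N) Ideal.Quotient.mk_surjective y

theorem mk_sec (N : ℕ) (y : RN H N) : mkN H N (sec H N y) = y :=
  Function.surjInv_eq _ y

theorem mkN_eq (N : ℕ) (a b : O) : mkN H N a = mkN H N b ↔ H.pi ^ N ∣ a - b := by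
  rw [mkN, mkN, Ideal.Quotient.eq, Ideal.mem_span_singleton]

theorem sec_mk (N : ℕ) (a : O) : H.pi ^ N ∣ sec H N (mkN H N a) - a := by
  rw [← mkN_eq, mk_sec]

theorem finite_RN (hB : S_BAS) [Finite k] (N : ℕ) : Finite (RN H N) := by
  have h := (hB O k H).2.2.2 inferInstance N
  apply Nat.finite_of_card_ne_zero
  change Nat.card (O ⧸ Ideal.span {H.pi ^ N}) ≠ 0
  rw [h]
  exact pow_ne_zero _ (Nat.card_pos (α := k)).ne'

theorem card_RN (hB : S_BAS) [Finite k] (N : ℕ) : Nat.card (RN H N) = Nat.card k ^ N :=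
  (hB O k H).2.2.2 inferInstance N

theorem ncl_eq {n : ℕ} (N : ℕ) (Y : Set (Fin n → O)) (hY : Stab H N Y) :
    ncl H N Y = Nat.card {y : Fin n → RN H N // (fun j => sec H N (y j)) ∈ Y} := by
  have h : (fun (x : Fin n → O) j => Ideal.Quotient.mk (Ideal.span {H.pi ^ N}) (x j)) '' Y =
      {y : Fin n → RN H N | (fun j => sec H N (y j)) ∈ Y} := by
    ext y
    constructor
    · rintro ⟨x, hx, rfl⟩
      change (fun j => sec H N (mkN H N (x j))) ∈ Y
      exact (hY _ x fun j => sec_mk H N (x j)).2 hx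
    · intro hy
      exact ⟨_, hy, funext fun j => mk_sec H N (y j)⟩
  rw [ncl, h]
  rfl

/-- number of classes of a set in one variable -/
noncomputable def ncl1 (N : ℕ) (A : Set O) : ℕ :=
  Nat.card ((fun t : O => Ideal.Quotient.mk (Ideal.span {H.pi ^ N}) t) '' A)

theorem ncl1_eq (N : ℕ) (A : Set O) (hA : ∀ t t' : O, H.pi ^ N ∣ t - t' → (t ∈ A ↔ t' ∈ A)) :
    ncl1 H N A = Nat.card {y : RN H N // sec H N y ∈ A} := by
  have h : (fun t : O => Ideal.Quotient.mk (Ideal.span {H.pi ^ N}) t) '' A =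
      {y : RN H N | sec H N y ∈ A} := by
    ext y
    constructor
    · rintro ⟨x, hx, rfl⟩
      change sec H N (mkN H N x) ∈ A
      exact (hA _ x (sec_mk H N x)).2 hx
    · intro hy
      exact ⟨_, hy, mk_sec H N y⟩
  rw [ncl1, h]
  rfl

theorem ncl1_le (hB : S_BAS) [Finite k] (N : ℕ) (A : Set O) : ncl1 H N A ≤ Nat.card k ^ N := by
  haveI := finite_RN H hB N
  rw [← card_RN H hB N, ncl1]
  exact Nat.card_le_card_of_injective (Subtype.val : _ → RN H N) Subtype.val_injective

variable {n : ℕ} (N : ℕ) (Y : Set (Fin (n + 1) → O)) (hY : Stab H N Y)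

/-- the number of classes of the fibre over `x` -/
noncomputable def fib (x : Fin n → O) : ℕ := ncl1 H N {t | (Fin.cons t x : Fin (n + 1) → O) ∈ Y}

include hY

theorem stab_cons (t t' : O) (x x' : Fin n → O) (ht : H.pi ^ N ∣ t - t')
    (hx : ∀ j, H.pi ^ N ∣ x j - x' j) :
    (Fin.cons t x : Fin (n + 1) → O) ∈ Y ↔ (Fin.cons t' x' : Fin (n + 1) → O) ∈ Y := by
  apply hY
  intro j
  refine Fin.cases ?_ (fun j => ?_) j
  · simpa using ht
  · simpa using hx j

theorem fib_eq (x : Fin n → O) :
    fib H N Y x = Nat.card {y : RN H N // (Fin.cons (sec H N y) x : Fin (n + 1) → O) ∈ Y} :=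
  ncl1_eq H N _ fun t t' h => stab_cons H N Y hY t t' x x h fun j => by simp

theorem fib_congr (x x' : Fin n → O) (hx : ∀ j, H.pi ^ N ∣ x j - x' j) :
    fib H N Y x = fib H N Y x' := by
  have h : {t | (Fin.cons t x : Fin (n + 1) → O) ∈ Y} =
      {t | (Fin.cons t x' : Fin (n + 1) → O) ∈ Y} := by
    ext t
    exact stab_cons H N Y hY t t x x' (by simp) hx
  rw [fib, fib, h]

theorem stab_fib (c : ℕ) : Stab H N {x : Fin n → O | fib H N Y x = c} := by
  intro x x' hx
  change fib H N Y x = c ↔ fib H N Y x' = c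
  rw [fib_congr H N Y hY x x' hx]

theorem ncl_sum (hB : S_BAS) [Finite k] :
    ncl H N Y = ∑ c ∈ Finset.range (Nat.card k ^ N + 1),
      c * ncl H N {x : Fin n → O | fib H N Y x = c} := by
  classical
  haveI := finite_RN H hB N
  haveI : Fintype (RN H N) := Fintype.ofFinite _
  have e : {y : Fin (n + 1) → RN H N // (fun j => sec H N (y j)) ∈ Y} ≃
      (Σ x : Fin n → RN H N, {t : RN H N //
        (Fin.cons (sec H N t) (fun j => sec H N (x j)) : Fin (n + 1) → O) ∈ Y}) :=
    { toFun := fun y => ⟨fun j => y.1 (Fin.succ j), ⟨y.1 0, by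
        have h := y.2
        convert h using 1
        funext j
        refine Fin.cases ?_ (fun j => ?_) j <;> simp⟩⟩
      invFun := fun z => ⟨Fin.cons z.2.1 z.1, by
        have h := z.2.2
        convert h using 1
        funext j
        refine Fin.cases ?_ (fun j => ?_) j <;> simp⟩
      left_inv := by
        intro y
        apply Subtype.ext
        funext j
        refine Fin.cases ?_ (fun j => ?_) j <;> simp
      right_inv := by
        rintro ⟨x, t, h⟩
        rfl }
  have h1 : ncl H N Y = ∑ x : Fin n → RN H N, fib H N Y (fun j => sec H N (x j)) := by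
    rw [ncl_eq H N Y hY, Nat.card_congr e, Nat.card_sigma]
    exact Finset.sum_congr rfl fun x _ => (fib_eq H N Y hY _).symm
  rw [h1]
  have h2 : ∀ c, ncl H N {x : Fin n → O | fib H N Y x = c} =
      (Finset.univ.filter fun x : Fin n → RN H N =>
        fib H N Y (fun j => sec H N (x j)) = c).card := by
    intro c
    rw [ncl_eq H N _ (stab_fib H N Y hY c), Nat.card_eq_fintype_card, Fintype.card_subtype]
    rfl
  have h3 := Finset.sum_fiberwise_of_maps_to (s := (Finset.univ : Finset (Fin n → RN H N)))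
    (t := Finset.range (Nat.card k ^ N + 1))
    (g := fun x : Fin n → RN H N => fib H N Y (fun j => sec H N (x j)))
    (fun x _ => Finset.mem_range.2 (Nat.lt_succ_of_le (ncl1_le H hB N _)))
    (fun x : Fin n → RN H N => fib H N Y (fun j => sec H N (x j)))
  rw [← h3]
  refine Finset.sum_congr rfl fun c _ => ?_
  rw [h2, Finset.sum_congr rfl (g := fun _ => c) (fun x hx => (Finset.mem_filter.1 hx).2),
    Finset.sum_const, smul_eq_mul, mul_comm]

end cnt

end Pool.Agent.T3h43.UR
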