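import Pool.Agent.T3h43.UR.Cnt

/-! The induction step of the cell decomposition for one ring. -/

set_option autoImplicit false
set_option linter.unusedVariables false
set_option linter.unusedSectionVars false

namespace Pool.Agent.T3h43.UR

open Pool.Agent.T2h77U Polynomial

section ring

variable {O k : Type} [CommRing O] [IsDomain O] [Field k] [Finite k] (H : HF O k)

/-- the vectors of the last variable -/
def TT {m1 m' : ℕ} (D1 : ℕ) (der : Fin m1 → ℕ → Fin m1) (P : Set (Fin m' ⊕ Fin m1 → ℕ × k))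
    (Q1 : Set (Fin m1 → ℕ × k)) (t' : Fin m' → ℕ × k) : Set ((Fin m1 → ℕ × k) × ℕ) :=
  {y | y.1 ∈ Q1 ∧ Sum.elim t' y.1 ∈ P ∧
    (∀ a, (y.1 a).2 = 0 → ∀ j, j ≤ D1 → (y.1 (der a j)).2 = 0) ∧ Lam D1 der Set.univ y.1 y.2}

/-- its sum -/
noncomputable def phi {m1 m' : ℕ} (D1 : ℕ) (der : Fin m1 → ℕ → Fin m1)
    (P : Set (Fin m' ⊕ Fin m1 → ℕ × k))
    (Q1 : Set (Fin m1 → ℕ × k)) (t' : Fin m' → ℕ × k) : ℝ :=
  ∑' y : {y : (Fin m1 → ℕ × k) × ℕ // y ∈ TT D1 der P Q1 t'}, ((Nat.card k : ℝ) ^ (y.1.2 + 1))⁻¹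

/-- the leading terms of the family at `x` -/
noncomputable def rvs {n m : ℕ} (g : Fin m → MvPolynomial (Fin n) ℤ) (x : Fin n → O) : Fin m → ℕ × k :=
  fun j => H.rv (MvPolynomial.aeval x (g j))

/-- the set of the cell decomposition -/
def ZZ {m1 m' : ℕ} {W : Type} (D1 : ℕ) (der : Fin m1 → ℕ → Fin m1)
    (P : Set (Fin m' ⊕ Fin m1 → ℕ × k)) (emb' : Fin m' → W) (Z' : Set (W → ℕ × k)) :
    Set (W ⊕ (Fin m1 ⊕ Fin 1) → ℕ × k) :=
  {ω | (fun w => ω (Sum.inl w)) ∈ Z' ∧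
    (fun z => ω (Sum.elim (fun j => Sum.inl (emb' j)) (fun a => Sum.inr (Sum.inl a)) z)) ∈ P ∧
    (∀ a, (ω (Sum.inr (Sum.inl a))).2 = 0 → ∀ j, j ≤ D1 →
      (ω (Sum.inr (Sum.inl (der a j)))).2 = 0) ∧
    Lam D1 der Set.univ (fun a => ω (Sum.inr (Sum.inl a))) (ω (Sum.inr (Sum.inr 0))).1 ∧
    (ω (Sum.inr (Sum.inr 0))).2 = 0}

theorem cell_ring (hB : S_BAS) (hO : S_ONE) {n m m1 m' D1 : ℕ}
    (g : Fin m → MvPolynomial (Fin (n + 1)) ℤ) (F : Fin m1 → (MvPolynomial (Fin n) ℤ)[X])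
    (emb1 : Fin m → Fin m1)
    (hemb1 : ∀ j (x : Fin n → O) (t : O), (ev x (F (emb1 j))).eval t =
      MvPolynomial.aeval (Fin.cons t x : Fin (n + 1) → O) (g j))
    (der : Fin m1 → ℕ → Fin m1) (x0 : Fin m1)
    (hder : ∀ (x : Fin n → O) a j, ev x (F (der a j)) = hasseDeriv j (ev x (F a)))
    (hx0 : ∀ x : Fin n → O, ev x (F x0) = X)
    (hdeg : ∀ (x : Fin n → O) a, (ev x (F a)).natDegree ≤ D1)
    (hD : ∀ j : ℕ, 1 ≤ j → j ≤ D1 → (j : k) ≠ 0)
    (g' : Fin m' → MvPolynomial (Fin n) ℤ) (P : Set (Fin m' ⊕ Fin m1 → ℕ × k))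
    (hP : ∀ (x : Fin n → O) (τ : Fin m1 → ℕ × k),
      (∃ t : O, ∀ a, τ a = H.rv ((ev x (F a)).eval t)) ↔ Sum.elim (rvs H g' x) τ ∈ P)
    {W : Type} [Fintype W] (emb' : Fin m' → W) (L' : Finset W) (Z' : Set (W → ℕ × k))
    (hreal : ∀ τ ∈ Z', ∃ x : Fin n → O, ∀ j, τ (emb' j) = H.rv (MvPolynomial.aeval x (g' j)))
    (hsum : ∀ (Q' : Set (Fin m' → ℕ × k)) (N0 : ℕ), Stab H N0 {x | rvs H g' x ∈ Q'} →
      HasSum (fun τ : {τ : W → ℕ × k // τ ∈ Z' ∧ (fun j => τ (emb' j)) ∈ Q'} =>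
        ((Nat.card k : ℝ) ^ (n + ∑ l ∈ L', (τ.1 l).1))⁻¹)
        ((ncl H N0 {x | rvs H g' x ∈ Q'} : ℝ) / (Nat.card k : ℝ) ^ (n * N0))) :
    (∀ ω ∈ ZZ D1 der P emb' Z', ∃ y : Fin (n + 1) → O, ∀ j,
      ω (Sum.inr (Sum.inl (emb1 j))) = H.rv (MvPolynomial.aeval y (g j))) ∧
    ∀ (Q : Set (Fin m → ℕ × k)) (N0 : ℕ), Stab H N0 {y | rvs H g y ∈ Q} →
      HasSum (fun ω : {ω : W ⊕ (Fin m1 ⊕ Fin 1) → ℕ × k //
          ω ∈ ZZ D1 der P emb' Z' ∧ (fun j => ω (Sum.inr (Sum.inl (emb1 j)))) ∈ Q} =>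
        ((Nat.card k : ℝ) ^ (n + 1 + ∑ l ∈ L'.disjSum {Sum.inr 0}, (ω.1 l).1))⁻¹)
        ((ncl H N0 {y | rvs H g y ∈ Q} : ℝ) / (Nat.card k : ℝ) ^ ((n + 1) * N0)) := by
  classical
  have hq0 : (0 : ℝ) < Nat.card k := by exact_mod_cast Nat.card_pos (α := k)
  constructor
  · rintro ω ⟨h1, h2, -⟩
    obtain ⟨x, hx⟩ := hreal _ h1
    have h3 : Sum.elim (rvs H g' x) (fun a => ω (Sum.inr (Sum.inl a))) ∈ P := by
      convert h2 using 1
      funext z
      rcases z with j | a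
      · exact (hx j).symm
      · rfl
    obtain ⟨t, ht⟩ := (hP x _).2 h3
    exact ⟨Fin.cons t x, fun j => by rw [← hemb1]; exact ht (emb1 j)⟩
  · intro Q N0 hQ
    set Y : Set (Fin (n + 1) → O) := {y | rvs H g y ∈ Q} with hYdef
    set Q1 : Set (Fin m1 → ℕ × k) := {t | (fun j => t (emb1 j)) ∈ Q} with hQ1
    -- one variable
    have hA : ∀ (x : Fin n → O) (t : O), (fun a => H.rv ((ev x (F a)).eval t)) ∈ Q1 ↔
        (Fin.cons t x : Fin (n + 1) → O) ∈ Y := by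
      intro x t
      change (fun j => H.rv ((ev x (F (emb1 j))).eval t)) ∈ Q ↔ rvs H g (Fin.cons t x) ∈ Q
      have : (fun j => H.rv ((ev x (F (emb1 j))).eval t)) = rvs H g (Fin.cons t x) := by
        funext j
        rw [hemb1]; rfl
      rw [this]
    have hone : ∀ (x : Fin n → O), HasSum (fun y : {y : (Fin m1 → ℕ × k) × ℕ //
        y ∈ TT D1 der P Q1 (rvs H g' x)} => ((Nat.card k : ℝ) ^ (y.1.2 + 1))⁻¹)
        ((fib H N0 Y x : ℝ) / (Nat.card k : ℝ) ^ N0) := by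
      intro x
      have h := hO O k H m1 (fun a => ev x (F a)) der x0 D1 (hder x) (hx0 x) (hdeg x) hD Q1 N0
        (by
          intro t t' htt
          rw [hA, hA]
          exact stab_cons H N0 Y hQ t t' x x htt fun j => by simp)
      have e1 : {t | (fun a => H.rv ((ev x (F a)).eval t)) ∈ Q1} =
          {t | (Fin.cons t x : Fin (n + 1) → O) ∈ Y} := by
        ext t; exact hA x t
      rw [e1] at h
      have e2 : ∀ y : (Fin m1 → ℕ × k) × ℕ, (y.1 ∈ Q1 ∧
          (∃ t : O, ∀ a, y.1 a = H.rv ((ev x (F a)).eval t)) ∧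
          (∀ a, (y.1 a).2 = 0 → ∀ j, j ≤ D1 → (y.1 (der a j)).2 = 0) ∧
          Lam D1 der Set.univ y.1 y.2) ↔ y ∈ TT D1 der P Q1 (rvs H g' x) := by
        intro y
        rw [hP x y.1]
        rfl
      exact (Equiv.hasSum_iff (Equiv.subtypeEquivRight e2)).1 h
    have hphi : ∀ x : Fin n → O, phi D1 der P Q1 (rvs H g' x) =
        (fib H N0 Y x : ℝ) / (Nat.card k : ℝ) ^ N0 := fun x => (hone x).tsum_eq
    have hqN : ((Nat.card k : ℝ) ^ N0) ≠ 0 := pow_ne_zero _ hq0.ne'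
    have hphi' : ∀ (x : Fin n → O) (c : ℕ), phi D1 der P Q1 (rvs H g' x) =
        (c : ℝ) / (Nat.card k : ℝ) ^ N0 ↔ fib H N0 Y x = c := by
      intro x c
      rw [hphi, div_left_inj' hqN]
      exact Nat.cast_inj
    -- the first sum
    set wt : (W → ℕ × k) → ℝ := fun τ => ((Nat.card k : ℝ) ^ (n + ∑ l ∈ L', (τ l).1))⁻¹ with hwt
    have hfirst : HasSum (fun τ : {τ : W → ℕ × k // τ ∈ Z'} =>
        wt τ.1 * phi D1 der P Q1 (fun j => τ.1 (emb' j)))
        ((ncl H N0 Y : ℝ) / (Nat.card k : ℝ) ^ ((n + 1) * N0)) := by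
      have h1 : ∀ c ∈ Finset.range (Nat.card k ^ N0 + 1),
          HasSum (fun τ : W → ℕ × k => ((c : ℝ) / (Nat.card k : ℝ) ^ N0) *
            Set.indicator {τ | τ ∈ Z' ∧ (fun j => τ (emb' j)) ∈
              {t' | phi D1 der P Q1 t' = (c : ℝ) / (Nat.card k : ℝ) ^ N0}} wt τ)
            (((c : ℝ) / (Nat.card k : ℝ) ^ N0) *
              ((ncl H N0 {x : Fin n → O | fib H N0 Y x = c} : ℝ) /
                (Nat.card k : ℝ) ^ (n * N0))) := by
        intro c _
        apply HasSum.mul_left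
        rw [← hasSum_subtype_iff_indicator]
        have h2 := hsum {t' | phi D1 der P Q1 t' = (c : ℝ) / (Nat.card k : ℝ) ^ N0} N0
        have h3 : {x : Fin n → O | rvs H g' x ∈
            {t' | phi D1 der P Q1 t' = (c : ℝ) / (Nat.card k : ℝ) ^ N0}} =
            {x : Fin n → O | fib H N0 Y x = c} := by
          ext x
          exact hphi' x c
        rw [h3] at h2
        exact h2 (stab_fib H N0 Y hQ c)
      have h2 := hasSum_sum h1
      have h3 : ∑ c ∈ Finset.range (Nat.card k ^ N0 + 1), (((c : ℝ) / (Nat.card k : ℝ) ^ N0) *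
              ((ncl H N0 {x : Fin n → O | fib H N0 Y x = c} : ℝ) /
                (Nat.card k : ℝ) ^ (n * N0))) =
          (ncl H N0 Y : ℝ) / (Nat.card k : ℝ) ^ ((n + 1) * N0) := by
        rw [ncl_sum H N0 Y hQ hB]
        push_cast
        rw [Finset.sum_div]
        refine Finset.sum_congr rfl fun c _ => ?_
        rw [div_mul_div_comm, ← pow_add]
        congr 2
        ring
      rw [h3] at h2
      have h4 : (fun τ : W → ℕ × k => ∑ c ∈ Finset.range (Nat.card k ^ N0 + 1),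
          ((c : ℝ) / (Nat.card k : ℝ) ^ N0) *
            Set.indicator {τ | τ ∈ Z' ∧ (fun j => τ (emb' j)) ∈
              {t' | phi D1 der P Q1 t' = (c : ℝ) / (Nat.card k : ℝ) ^ N0}} wt τ) =
          Set.indicator Z' (fun τ => wt τ * phi D1 der P Q1 (fun j => τ (emb' j))) := by
        funext τ
        by_cases hτ : τ ∈ Z'
        · obtain ⟨x, hx⟩ := hreal τ hτ
          have hx' : (fun j => τ (emb' j)) = rvs H g' x := funext hx
          rw [Set.indicator_of_mem hτ]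
          have hmem : fib H N0 Y x ∈ Finset.range (Nat.card k ^ N0 + 1) :=
            Finset.mem_range.2 (Nat.lt_succ_of_le (ncl1_le H hB N0 _))
          rw [Finset.sum_eq_single_of_mem _ hmem]
          · rw [Set.indicator_of_mem, hx', hphi x, mul_comm]
            refine ⟨hτ, ?_⟩
            change phi D1 der P Q1 (fun j => τ (emb' j)) = _
            rw [hx', hphi x]
          · intro c _ hc
            rw [Set.indicator_of_notMem, mul_zero]
            rintro ⟨-, h5⟩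
            change phi D1 der P Q1 (fun j => τ (emb' j)) = _ at h5
            rw [hx', hphi' x] at h5
            exact hc h5.symm
        · rw [Set.indicator_of_notMem hτ]
          refine Finset.sum_eq_zero fun c _ => ?_
          rw [Set.indicator_of_notMem, mul_zero]
          exact fun h5 => hτ h5.1
      rw [h4] at h2
      exact hasSum_subtype_iff_indicator.2 h2
    -- the double sum
    have hsig : HasSum (fun z : (Σ τ : {τ : W → ℕ × k // τ ∈ Z'},
        {y : (Fin m1 → ℕ × k) × ℕ // y ∈ TT D1 der P Q1 (fun j => τ.1 (emb' j))}) =>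
        wt z.1.1 * ((Nat.card k : ℝ) ^ (z.2.1.2 + 1))⁻¹)
        ((ncl H N0 Y : ℝ) / (Nat.card k : ℝ) ^ ((n + 1) * N0)) := by
      have h1 : ∀ τ : {τ : W → ℕ × k // τ ∈ Z'}, HasSum (fun y : {y : (Fin m1 → ℕ × k) × ℕ //
          y ∈ TT D1 der P Q1 (fun j => τ.1 (emb' j))} =>
          wt τ.1 * ((Nat.card k : ℝ) ^ (y.1.2 + 1))⁻¹)
          (wt τ.1 * phi D1 der P Q1 (fun j => τ.1 (emb' j))) := by
        intro τ
        apply HasSum.mul_left
        obtain ⟨x, hx⟩ := hreal τ.1 τ.2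
        have hx' : (fun j => τ.1 (emb' j)) = rvs H g' x := funext hx
        rw [hx', hphi x]
        exact hone x
      refine HasSum.sigma_of_hasSum hfirst h1 ?_
      rw [summable_sigma_of_nonneg]
      · exact ⟨fun τ => (h1 τ).summable, hfirst.summable.congr fun τ => ((h1 τ).tsum_eq).symm⟩
      · intro z
        positivity
    -- reindexing
    let e : (Σ τ : {τ : W → ℕ × k // τ ∈ Z'},
        {y : (Fin m1 → ℕ × k) × ℕ // y ∈ TT D1 der P Q1 (fun j => τ.1 (emb' j))}) ≃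
        {ω : W ⊕ (Fin m1 ⊕ Fin 1) → ℕ × k //
          ω ∈ ZZ D1 der P emb' Z' ∧ (fun j => ω (Sum.inr (Sum.inl (emb1 j)))) ∈ Q} :=
      { toFun := fun z => ⟨Sum.elim z.1.1 (Sum.elim z.2.1.1 (fun _ => (z.2.1.2, 0))), by
          obtain ⟨⟨τ, hτ⟩, ⟨⟨t, l⟩, h1, h2, h3, h4⟩⟩ := z
          refine ⟨⟨hτ, ?_, h3, h4, rfl⟩, h1⟩
          convert h2 using 1
          funext z
          rcases z with j | a <;> rfl⟩
        invFun := fun ω => ⟨⟨fun w => ω.1 (Sum.inl w), ω.2.1.1⟩,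
          ⟨(fun a => ω.1 (Sum.inr (Sum.inl a)), (ω.1 (Sum.inr (Sum.inr 0))).1), by
            obtain ⟨ω, ⟨h1, h2, h3, h4, h5⟩, h6⟩ := ω
            refine ⟨h6, ?_, h3, h4⟩
            convert h2 using 1
            funext z
            rcases z with j | a <;> rfl⟩⟩
        left_inv := by
          rintro ⟨⟨τ, hτ⟩, ⟨⟨t, l⟩, h⟩⟩
          rfl
        right_inv := by
          rintro ⟨ω, ⟨h1, h2, h3, h4, h5⟩, h6⟩
          apply Subtype.ext
          funext z
          rcases z with w | a | b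
          · rfl
          · rfl
          · have : b = 0 := Subsingleton.elim _ _
            subst this
            exact Prod.ext rfl h5.symm }
    refine (Equiv.hasSum_iff e).1 ?_
    convert hsig using 1
    funext z
    obtain ⟨⟨τ, hτ⟩, ⟨⟨t, l⟩, h⟩⟩ := z
    simp only [Function.comp_apply, e, Equiv.coe_fn_mk, hwt]
    rw [← mul_inv, ← pow_add, Finset.sum_disjSum]
    congr 2
    simp only [Finset.sum_singleton, Sum.elim_inl, Sum.elim_inr]
    ring

end ring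

end Pool.Agent.T3h43.UR
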