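import Pool.Agent.T2h77U.Stm

/-! Calculus of good relations and of `XG` in terms of predicates. -/

set_option autoImplicit false
set_option linter.unusedVariables false

namespace Pool.Agent.T3h43.UR

open Pool.Agent.T2h77U Polynomial

section good

variable {ι : Type} {k : ι → Type}

theorem Good.congr {s : Type} {R R' : Rel k s} (h : ∀ i ρ, ρ ∈ R' i ↔ ρ ∈ R i) (hR : Good k R) :
    Good k R' := by
  obtain ⟨C, h1, h2, h3⟩ := hR
  exact ⟨C, h1, h2, fun i ρ ρ' a b => by rw [h, h]; exact h3 i ρ ρ' a b⟩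

theorem gNot (hG : S_GOO) {s : Type} {p : ∀ i, (s → ℕ × k i) → Prop}
    (hp : Good k (fun i => {ρ | p i ρ})) : Good k (fun i => {ρ | ¬ p i ρ}) :=
  Good.congr (fun i ρ => Iff.rfl) ((hG ι k).1 s _ hp)

theorem gAll (hG : S_GOO) {s J : Type} [Finite J] {p : J → ∀ i, (s → ℕ × k i) → Prop}
    (hp : ∀ j, Good k (fun i => {ρ | p j i ρ})) : Good k (fun i => {ρ | ∀ j, p j i ρ}) :=
  Good.congr (fun i ρ => by simp) ((hG ι k).2.1 s J _ hp)

theorem gEx (hG : S_GOO) {s J : Type} [Finite J] {p : J → ∀ i, (s → ℕ × k i) → Prop}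
    (hp : ∀ j, Good k (fun i => {ρ | p j i ρ})) : Good k (fun i => {ρ | ∃ j, p j i ρ}) :=
  Good.congr (fun i ρ => by simp) ((hG ι k).2.2.1 s J _ hp)

theorem gAnd (hG : S_GOO) {s : Type} {p p' : ∀ i, (s → ℕ × k i) → Prop}
    (hp : Good k (fun i => {ρ | p i ρ})) (hp' : Good k (fun i => {ρ | p' i ρ})) :
    Good k (fun i => {ρ | p i ρ ∧ p' i ρ}) := by
  refine Good.congr (fun i ρ => ?_) (gAll hG (J := Bool) (p := fun b => cond b p p') ?_)
  · simp [Bool.forall_bool, and_comm]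
  · intro b; cases b
    · exact hp'
    · exact hp

theorem gOr (hG : S_GOO) {s : Type} {p p' : ∀ i, (s → ℕ × k i) → Prop}
    (hp : Good k (fun i => {ρ | p i ρ})) (hp' : Good k (fun i => {ρ | p' i ρ})) :
    Good k (fun i => {ρ | p i ρ ∨ p' i ρ}) := by
  refine Good.congr (fun i ρ => ?_) (gEx hG (J := Bool) (p := fun b => cond b p p') ?_)
  · simp [Bool.exists_bool, or_comm]
  · intro b; cases b
    · exact hp'
    · exact hp

theorem gRe (hG : S_GOO) {s s' : Type} [Finite s] [Finite s'] (f : s → s')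
    {p : ∀ i, (s → ℕ × k i) → Prop} (hp : Good k (fun i => {ρ | p i ρ})) :
    Good k (fun i => {ρ : s' → ℕ × k i | p i (fun j => ρ (f j))}) :=
  Good.congr (fun i ρ => Iff.rfl) ((hG ι k).2.2.2.1 s s' f _ hp)

theorem gProj (hG : S_GOO) {s u : Type} [Finite s] [Finite u]
    {p : ∀ i, (s ⊕ u → ℕ × k i) → Prop} (hp : Good k (fun i => {ρ | p i ρ})) :
    Good k (fun i => {ρ : s → ℕ × k i | ∃ τ : u → ℕ × k i, p i (Sum.elim ρ τ)}) :=
  Good.congr (fun i ρ => Iff.rfl) ((hG ι k).2.2.2.2.1 s u _ hp)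

theorem gRes (hG : S_GOO) {s : Type} (A : ∀ i, (s → k i) → Prop) :
    Good k (fun i => {ρ : s → ℕ × k i | A i (fun j => (ρ j).2)}) :=
  Good.congr (fun i ρ => Iff.rfl) ((hG ι k).2.2.2.2.2.1 s (fun i => {x | A i x}))

theorem gLin (hG : S_GOO) {s : Type} [Fintype s] (a b : s → ℕ) (c d : ℕ) :
    Good k (fun i => {ρ : s → ℕ × k i | ∑ j, a j * (ρ j).1 + c ≤ ∑ j, b j * (ρ j).1 + d}) :=
  (hG ι k).2.2.2.2.2.2.2 s a b c d

end good

section

variable {ι : Type} {O k : ι → Type} [∀ i, CommRing (O i)] [∀ i, IsDomain (O i)]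
  [∀ i, Field (k i)] {H : ∀ i, HF (O i) (k i)} {n : ℕ}

theorem XG.congr {s : Type} {S S' : ∀ i, (Fin n → O i) → Set (s → ℕ × k i)}
    (h : ∀ i x ρ, ρ ∈ S' i x ↔ ρ ∈ S i x) (hS : XG O k H S) : XG O k H S' := by
  obtain ⟨m, g, P, hP, hh⟩ := hS
  exact ⟨m, g, P, hP, fun i x ρ => (h i x ρ).trans (hh i x ρ)⟩

variable (hX : S_XGC)
include hX

theorem xNot {s : Type} [Finite s] {p : ∀ i, (Fin n → O i) → (s → ℕ × k i) → Prop}
    (hp : XG O k H (fun i x => {ρ | p i x ρ})) : XG O k H (fun i x => {ρ | ¬ p i x ρ}) :=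
  XG.congr (fun i x ρ => Iff.rfl) ((hX ι O k H n).1 s _ hp)

theorem xAll {s J : Type} [Finite s] [Finite J]
    {p : J → ∀ i, (Fin n → O i) → (s → ℕ × k i) → Prop}
    (hp : ∀ j, XG O k H (fun i x => {ρ | p j i x ρ})) :
    XG O k H (fun i x => {ρ | ∀ j, p j i x ρ}) :=
  XG.congr (fun i x ρ => by simp) ((hX ι O k H n).2.1 s J _ hp)

theorem xEx {s J : Type} [Finite s] [Finite J]
    {p : J → ∀ i, (Fin n → O i) → (s → ℕ × k i) → Prop}
    (hp : ∀ j, XG O k H (fun i x => {ρ | p j i x ρ})) :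
    XG O k H (fun i x => {ρ | ∃ j, p j i x ρ}) :=
  XG.congr (fun i x ρ => by simp) ((hX ι O k H n).2.2.1 s J _ hp)

theorem xAnd {s : Type} [Finite s] {p p' : ∀ i, (Fin n → O i) → (s → ℕ × k i) → Prop}
    (hp : XG O k H (fun i x => {ρ | p i x ρ})) (hp' : XG O k H (fun i x => {ρ | p' i x ρ})) :
    XG O k H (fun i x => {ρ | p i x ρ ∧ p' i x ρ}) := by
  refine XG.congr (fun i x ρ => ?_) (xAll hX (J := Bool) (p := fun b => cond b p p') ?_)
  · simp [Bool.forall_bool, and_comm]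
  · intro b; cases b
    · exact hp'
    · exact hp

theorem xOr {s : Type} [Finite s] {p p' : ∀ i, (Fin n → O i) → (s → ℕ × k i) → Prop}
    (hp : XG O k H (fun i x => {ρ | p i x ρ})) (hp' : XG O k H (fun i x => {ρ | p' i x ρ})) :
    XG O k H (fun i x => {ρ | p i x ρ ∨ p' i x ρ}) := by
  refine XG.congr (fun i x ρ => ?_) (xEx hX (J := Bool) (p := fun b => cond b p p') ?_)
  · simp [Bool.exists_bool, or_comm]
  · intro b; cases b
    · exact hp'
    · exact hp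

theorem xRe {s s' : Type} [Finite s] [Finite s'] (f : s → s')
    {p : ∀ i, (Fin n → O i) → (s → ℕ × k i) → Prop}
    (hp : XG O k H (fun i x => {ρ | p i x ρ})) :
    XG O k H (fun i x => {ρ : s' → ℕ × k i | p i x (fun j => ρ (f j))}) :=
  XG.congr (fun i x ρ => Iff.rfl) ((hX ι O k H n).2.2.2.1 s s' f _ hp)

theorem xProj {s u : Type} [Finite s] [Finite u]
    {p : ∀ i, (Fin n → O i) → (s ⊕ u → ℕ × k i) → Prop}
    (hp : XG O k H (fun i x => {ρ | p i x ρ})) :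
    XG O k H (fun i x => {ρ : s → ℕ × k i | ∃ τ : u → ℕ × k i, p i x (Sum.elim ρ τ)}) :=
  XG.congr (fun i x ρ => Iff.rfl) ((hX ι O k H n).2.2.2.2.1 s u _ hp)

/-- a good relation between some of the coordinates -/
theorem xGood {s s' : Type} [Finite s] [Finite s'] (f : s → s') {p : ∀ i, (s → ℕ × k i) → Prop}
    (hp : Good k (fun i => {ρ | p i ρ})) :
    XG O k H (fun i (_ : Fin n → O i) => {ρ : s' → ℕ × k i | p i (fun j => ρ (f j))}) :=
  xRe hX (p := fun i (_ : Fin n → O i) ρ => p i ρ) f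
    (XG.congr (fun i x ρ => Iff.rfl) ((hX ι O k H n).2.2.2.2.2.1 s _ hp))

/-- substitution of the leading terms of polynomials -/
theorem xSub {s : Type} [Finite s] (m : ℕ) (g : Fin m → MvPolynomial (Fin n) ℤ)
    {p : ∀ i, (Fin n → O i) → (s ⊕ Fin m → ℕ × k i) → Prop}
    (hp : XG O k H (fun i x => {ρ | p i x ρ})) :
    XG O k H (fun i x => {ρ : s → ℕ × k i |
      p i x (Sum.elim ρ (fun j => (H i).rv (MvPolynomial.aeval x (g j))))}) :=
  XG.congr (fun i x ρ => Iff.rfl) ((hX ι O k H n).2.2.2.2.2.2 s m g _ hp)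

end

section small

variable {ι : Type} {k : ι → Type} [∀ i, Field (k i)]

theorem gEq (hR : S_REL) (hG : S_GOO) : Good k (fun i => {ρ : Fin 2 → ℕ × k i | ρ 0 = ρ 1}) := by
  have h1 := (hR ι k 0).2.2.1 0
  have h2 := (hG ι k).2.2.2.1 (Fin 3) (Fin 2) ![0, 0, 1] _ h1
  refine Good.congr (fun i ρ => ?_) h2
  simp [Prod.ext_iff]

theorem gZero2 (hG : S_GOO) : Good k (fun i => {ρ : Fin 1 → ℕ × k i | (ρ 0).2 = 0}) :=
  gRes hG (s := Fin 1) (fun i x => x 0 = 0)

theorem gZero (hG : S_GOO) : Good k (fun i => {ρ : Fin 1 → ℕ × k i | ρ 0 = (0, 0)}) := by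
  refine Good.congr (fun i ρ => ?_) (gAnd hG (gZero2 (k := k) hG)
    (gLin (k := k) hG (s := Fin 1) (fun _ => 1) (fun _ => 0) 0 0))
  simp [Prod.ext_iff, and_comm]

end small

section small2

variable {ι : Type} {O k : ι → Type} [∀ i, CommRing (O i)] [∀ i, IsDomain (O i)]
  [∀ i, Field (k i)] {H : ∀ i, HF (O i) (k i)} {n : ℕ}

theorem xZero2 (hX : S_XGC) (hG : S_GOO) {s : Type} [Finite s] (a : s) :
    XG O k H (fun i (_ : Fin n → O i) => {ρ : s → ℕ × k i | (ρ a).2 = 0}) :=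
  XG.congr (fun i x ρ => Iff.rfl) (xGood hX (fun _ : Fin 1 => a) (gZero2 (k := k) hG))

theorem xZero (hX : S_XGC) (hG : S_GOO) {s : Type} [Finite s] (a : s) :
    XG O k H (fun i (_ : Fin n → O i) => {ρ : s → ℕ × k i | ρ a = (0, 0)}) :=
  XG.congr (fun i x ρ => Iff.rfl) (xGood hX (fun _ : Fin 1 => a) (gZero (k := k) hG))

theorem xEq (hX : S_XGC) (hG : S_GOO) (hR : S_REL) {s : Type} [Finite s] (a b : s) :
    XG O k H (fun i (_ : Fin n → O i) => {ρ : s → ℕ × k i | ρ a = ρ b}) :=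
  XG.congr (fun i x ρ => Iff.rfl) (xGood hX (![a, b] : Fin 2 → s) (gEq (k := k) hR hG))

end small2

end Pool.Agent.T3h43.UR
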